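import Pool.Agent.Helper23_DE.EPI

/-!
# CLC: coherent modules form an abelian subcategory
-/

open CategoryTheory CategoryTheory.Limits AlgebraicGeometry TopologicalSpace Opposite

noncomputable section

namespace Pool.Agent.H66DE.QC23

/-- the linear map on sections -/
def appL {Y : Scheme.{0}} {M N : Y.Modules} (p : M ⟶ N) (U : Y.Opens) :
    Γ(M, U) →ₗ[Γ(Y, U)] Γ(N, U) where
  toFun := p.app U
  map_add' := map_add _
  map_smul' r x := Scheme.Modules.Hom.app_smul p r x

lemma coh_containsZero (Y : Scheme.{0}) : (IsCoh Y).ContainsZero where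
  exists_zero := by
    obtain ⟨Z, hZ, h⟩ := (containsZero Y).exists_zero
    refine ⟨Z, hZ, h, fun U _ ↦ ?_⟩
    have : Subsingleton Γ(Z, U) := ⟨fun a b ↦ by
      rw [isZero_sections hZ _ a, isZero_sections hZ _ b]⟩
    infer_instance

lemma coh_kernels (Y : Scheme.{0}) [IsLocallyNoetherian Y] : (IsCoh Y).IsClosedUnderKernels where
  kernels_le := by
    rintro _ ⟨f, k, hk, hf⟩
    refine ⟨(closedUnderKernels Y).kernels_le _ ⟨f, k, hk, hf.1.1, hf.2.1⟩, fun U hU ↦ ?_⟩
    have : IsNoetherianRing Γ(Y, U) := IsLocallyNoetherian.component_noetherian ⟨U, hU⟩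
    have := hf.1.2 U hU
    exact Module.Finite.of_injective (appL k.ι U) (kernel_sections f k hk U).1

lemma coh_cokernels (Y : Scheme.{0}) : (IsCoh Y).IsClosedUnderCokernels where
  cokernels_le := by
    rintro _ ⟨f, k, hk, hf⟩
    have hq := (closedUnderCokernels Y).cokernels_le _ ⟨f, k, hk, hf.1.1, hf.2.1⟩
    refine ⟨hq, fun U hU ↦ ?_⟩
    have := hf.2.2 U hU
    have : Epi k.π := epi_of_isColimit_cofork hk
    exact Module.Finite.of_surjective (appL k.π U) (surjective_of_epi hf.2.1 hq k.π this hU)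

lemma coh_products (Y : Scheme.{0}) : (IsCoh Y).IsClosedUnderFiniteProducts where
  isClosedUnderLimitsOfShape J _ :=
    { limitsOfShape_le := by
        rintro X ⟨pr⟩
        have hX : IsQCoh Y X := by
          have := closedUnderFiniteProducts Y
          exact (IsQCoh Y).prop_of_isLimit pr.isLimit fun j ↦ (pr.prop_diag_obj j).1
        obtain ⟨_, p, i, h⟩ := exists_retracts pr.diag _ pr.isLimit
        refine ⟨hX, fun U hU ↦ ?_⟩
        have := fun j ↦ (pr.prop_diag_obj ⟨j⟩).2 U hU
        refine Module.Finite.of_surjective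
          (∑ j, (appL (i j) U) ∘ₗ LinearMap.proj (φ := fun j ↦ Γ(pr.diag.obj ⟨j⟩, U)) j) ?_
        intro t
        refine ⟨fun j ↦ (p j).app U t, ?_⟩
        rw [LinearMap.sum_apply]
        exact sum_retracts _ p i h U t }

end Pool.Agent.H66DE.QC23

namespace Pool.Agent.H66DE

/-- CLC -/
theorem clc : CohClosedStatement := fun Y _ ↦ ⟨QC23.coh_containsZero Y, QC23.coh_kernels Y,
  QC23.coh_cokernels Y, QC23.coh_products Y⟩

end Pool.Agent.H66DE
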