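import Pool.Agent.Helper23_DE.QCL

/-!
# CLQ: quasi-coherent modules form an abelian subcategory
-/

open CategoryTheory CategoryTheory.Limits AlgebraicGeometry TopologicalSpace Opposite

noncomputable section

namespace Pool.Agent.H66DE.QC23

/-- sections over `U` as a functor to abelian groups -/
def secF (Y : Scheme.{0}) (U : Y.Opens) : Y.Modules ⥤ Ab :=
  Scheme.Modules.toPresheaf Y ⋙ (evaluation _ _).obj (op U)

lemma secF_map {Y : Scheme.{0}} (U : Y.Opens) {M N : Y.Modules} (φ : M ⟶ N) :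
    (secF Y U).map φ = φ.app U := rfl

instance (Y : Scheme.{0}) (U : Y.Opens) : PreservesLimits (secF Y U) := by
  have : PreservesLimits ((evaluation (Opens Y)ᵒᵖ Ab.{0}).obj (op U)) :=
    inferInstance
  exact comp_preservesLimits _ _

instance (Y : Scheme.{0}) (U : Y.Opens) : (secF Y U).PreservesZeroMorphisms where
  map_zero _ _ := rfl

instance (Y : Scheme.{0}) (U : Y.Opens) : (secF Y U).Additive where
  map_add := rfl

lemma kernel_sections {Y : Scheme.{0}} {M N : Y.Modules} (f : M ⟶ N) (k : KernelFork f)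
    (hk : IsLimit k) (U : Y.Opens) :
    Function.Injective (k.ι.app U) ∧
      ∀ s : Γ(M, U), f.app U s = 0 → ∃ t : Γ(k.pt, U), k.ι.app U t = s := by
  have hm : Mono k.ι := mono_of_isLimit_fork hk
  have hm' : Mono ((secF Y U).map k.ι) := inferInstance
  let S : ShortComplex Y.Modules := ShortComplex.mk k.ι f k.condition
  have hS : S.Exact := S.exact_of_f_is_kernel (IsLimit.ofIsoLimit hk (Fork.ext (Iso.refl _)))
  have hS' : (S.map (secF Y U)).Exact := hS.map_of_mono_of_preservesKernel _ hm inferInstance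
  refine ⟨?_, fun s hs ↦ ?_⟩
  · rw [← AddCommGrpCat.mono_iff_injective]
    exact hm'
  · rw [ShortComplex.ab_exact_iff] at hS'
    exact hS' s hs

lemma app_map {Y : Scheme.{0}} {M N : Y.Modules} (p : M ⟶ N) {U V : Y.Opens} (h : V ≤ U)
    (t : Γ(M, U)) : p.app V (M.presheaf.map (homOfLE h).op t) =
      N.presheaf.map (homOfLE h).op (p.app U t) :=
  congr($(p.mapPresheaf.naturality (homOfLE h).op) t)

lemma locAt_kernel {Y : Scheme.{0}} {M N : Y.Modules} (p : M ⟶ N) (k : KernelFork p)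
    (hk : IsLimit k) (U : Y.Opens) (f : Γ(Y, U)) (hM : LocAt M U f) (hN : LocAt N U f) :
    LocAt k.pt U f := by
  obtain ⟨hM1, hM2⟩ := hM
  obtain ⟨hN1, hN2⟩ := hN
  refine ⟨fun t ht ↦ ?_, fun s ↦ ?_⟩
  · obtain ⟨n, hn⟩ := hM1 (k.ι.app U t) (by rw [← app_map, ht, map_zero])
    refine ⟨n, (kernel_sections p k hk U).1 ?_⟩
    rw [Scheme.Modules.Hom.app_smul, hn, map_zero]
  · obtain ⟨n, t, hn⟩ := hM2 (k.ι.app _ s)
    have hz : p.app _ (k.ι.app _ s) = 0 := by
      have : (k.ι ≫ p).app (Y.basicOpen f) s = 0 := by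
        rw [k.condition]; rfl
      exact this
    obtain ⟨m, hm⟩ := hN1 (p.app U t) (by
      rw [← app_map, hn, Scheme.Modules.Hom.app_smul, hz, smul_zero])
    obtain ⟨u, hu⟩ := (kernel_sections p k hk U).2 (f ^ m • t) (by
      rw [Scheme.Modules.Hom.app_smul, hm])
    refine ⟨m + n, u, (kernel_sections p k hk _).1 ?_⟩
    rw [app_map, hu, Scheme.Modules.map_smul, hn, Scheme.Modules.Hom.app_smul, map_pow, pow_add,
      mul_smul]

/-- quasi-coherence may be checked on all affine opens -/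
lemma isQCoh_iff_locAt {Y : Scheme.{0}} (M : Y.Modules) :
    IsQCoh Y M ↔ ∀ U : Y.Opens, IsAffineOpen U → ∀ f : Γ(Y, U), LocAt M U f := by
  refine ⟨fun h ↦ qcl.1 Y M h, fun h ↦ qcl.2 Y M {U : Y.Opens // IsAffineOpen U} (fun i ↦ i.1)
    (fun i ↦ i.2) (iSup_affineOpens_eq_top Y) fun i f ↦ h i.1 i.2 f⟩

lemma isQCoh_iff_restrict {Y : Scheme.{0}} (M : Y.Modules) :
    IsQCoh Y M ↔ ∀ (U : Y.Opens) (hU : IsAffineOpen U),
      (M.restrict hU.fromSpec).IsQuasicoherent :=
  ⟨fun h _ hU ↦ isQCoh_restrict M hU h, fun h ↦ isQCoh_of_cover M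
    (ι := {U : Y.Opens // IsAffineOpen U}) (fun i ↦ i.1)
    (fun i ↦ i.2) (iSup_affineOpens_eq_top Y) fun i ↦ h i.1 i.2⟩

lemma closedUnderKernels (Y : Scheme.{0}) : (IsQCoh Y).IsClosedUnderKernels where
  kernels_le := by
    rintro _ ⟨f, k, hk, hf⟩
    rw [isQCoh_iff_locAt]
    intro U hU g
    exact locAt_kernel f k hk U g (qcl.1 Y _ hf.1 U hU g) (qcl.1 Y _ hf.2 U hU g)

lemma sum_retracts {Y : Scheme.{0}} {X : Y.Modules} {J : Type} [Fintype J] (F : J → Y.Modules)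
    (p : ∀ j, X ⟶ F j) (i : ∀ j, F j ⟶ X) (h : ∑ j, p j ≫ i j = 𝟙 X) (V : Y.Opens)
    (t : Γ(X, V)) : ∑ j, (i j).app V ((p j).app V t) = t := by
  have h1 : (secF Y V).map (∑ j, p j ≫ i j) = 𝟙 _ := by rw [h]; rfl
  rw [Functor.map_sum] at h1
  have h2 := congr($h1 t)
  let Φ : ((secF Y V).obj X ⟶ (secF Y V).obj X) →+ ((secF Y V).obj X) :=
    { toFun := fun φ ↦ φ t
      map_zero' := rfl
      map_add' := fun _ _ ↦ rfl }
  change Φ (∑ j, (secF Y V).map (p j ≫ i j)) = _ at h2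
  rw [map_sum] at h2
  exact h2

/-- sum of retracts -/
lemma locAt_retracts {Y : Scheme.{0}} {X : Y.Modules} {J : Type} [Fintype J] (F : J → Y.Modules)
    (p : ∀ j, X ⟶ F j) (i : ∀ j, F j ⟶ X) (h : ∑ j, p j ≫ i j = 𝟙 X) (U : Y.Opens) (f : Γ(Y, U))
    (hF : ∀ j, LocAt (F j) U f) : LocAt X U f := by
  have hs : ∀ (V : Y.Opens) (t : Γ(X, V)), ∑ j, (i j).app V ((p j).app V t) = t :=
    sum_retracts F p i h
  refine ⟨fun t ht ↦ ?_, fun s ↦ ?_⟩
  · have := fun j ↦ (hF j).1 ((p j).app U t) (by rw [← app_map, ht, map_zero])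
    choose n hn using this
    refine ⟨∑ j, n j, ?_⟩
    rw [← hs U (f ^ (∑ j, n j) • t)]
    refine Finset.sum_eq_zero fun j _ ↦ ?_
    obtain ⟨m, hm⟩ := Nat.exists_eq_add_of_le (Finset.single_le_sum (f := n)
      (fun _ _ ↦ Nat.zero_le _) (Finset.mem_univ j))
    rw [hm, pow_add, mul_comm, mul_smul]
    simp only [Scheme.Modules.Hom.app_smul]
    rw [← Scheme.Modules.Hom.app_smul (i j) (f ^ n j), hn, map_zero, smul_zero]
  · have := fun j ↦ (hF j).2 ((p j).app _ s)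
    choose n t hn using this
    refine ⟨∑ j, n j, ∑ j, (i j).app U (f ^ (∑ k, n k - n j) • t j), ?_⟩
    rw [map_sum, ← hs _ (_ • s)]
    refine Finset.sum_congr rfl fun j _ ↦ ?_
    rw [← app_map, Scheme.Modules.map_smul, hn]
    simp only [Scheme.Modules.Hom.app_smul, map_pow]
    rw [← mul_smul, ← pow_add, Nat.sub_add_cancel (Finset.single_le_sum (f := n)
      (fun _ _ ↦ Nat.zero_le _) (Finset.mem_univ j))]

lemma isZero_sections {Y : Scheme.{0}} {Z : Y.Modules} (hZ : IsZero Z) (V : Y.Opens)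
    (t : Γ(Z, V)) : t = 0 := by
  have h1 : 𝟙 Z = 0 := hZ.eq_of_src _ _
  have h2 : (𝟙 Z : Z ⟶ Z).app V t = (0 : Z ⟶ Z).app V t := by
    rw [h1]
  exact h2

lemma containsZero (Y : Scheme.{0}) : (IsQCoh Y).ContainsZero where
  exists_zero := by
    obtain ⟨Z, hZ⟩ : ∃ Z : Y.Modules, IsZero Z := HasZeroObject.zero
    refine ⟨Z, hZ, ?_⟩
    rw [isQCoh_iff_locAt]
    intro U hU f
    exact ⟨fun t _ ↦ ⟨0, isZero_sections hZ _ _⟩, fun s ↦
      ⟨0, 0, by rw [isZero_sections hZ _ s, map_zero, smul_zero]⟩⟩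

/-- presentation of a finite product as a sum of retracts -/
lemma exists_retracts {C : Type*} [Category* C] [Preadditive C]
    {J : Type} [Finite J] (G : Discrete J ⥤ C) (c : Cone G) (hc : IsLimit c) :
    ∃ (_ : Fintype J) (p : ∀ j, c.pt ⟶ G.obj ⟨j⟩) (i : ∀ j, G.obj ⟨j⟩ ⟶ c.pt),
      ∑ j, p j ≫ i j = 𝟙 c.pt := by
  classical
  obtain ⟨hJ⟩ := nonempty_fintype J
  refine ⟨hJ, fun j ↦ c.π.app ⟨j⟩, fun j ↦ hc.lift (Cone.mk (G.obj ⟨j⟩)
    (Discrete.natTrans fun k ↦ if h : j = k.as then eqToHom (by subst h; rfl) else 0)), ?_⟩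
  refine hc.hom_ext fun ⟨k⟩ ↦ ?_
  rw [Preadditive.sum_comp]
  simp only [Category.assoc, IsLimit.fac, Category.id_comp]
  rw [Finset.sum_eq_single k]
  · simp
  · intro j _ hjk
    simp [hjk]
  · simp

lemma closedUnderFiniteProducts (Y : Scheme.{0}) : (IsQCoh Y).IsClosedUnderFiniteProducts where
  isClosedUnderLimitsOfShape J _ :=
    { limitsOfShape_le := by
        rintro X ⟨pr⟩
        obtain ⟨_, p, i, h⟩ := exists_retracts pr.diag _ pr.isLimit
        rw [isQCoh_iff_locAt]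
        intro U hU f
        exact locAt_retracts _ p i h U f fun j ↦ qcl.1 Y _ (pr.prop_diag_obj ⟨j⟩) U hU f }

lemma cokernel_spec {R : CommRingCat.{0}} {M N : (Spec R).Modules} (f : M ⟶ N)
    (k : CokernelCofork f) (hk : IsColimit k) (hM : M.IsQuasicoherent) (hN : N.IsQuasicoherent) :
    SheafOfModules.IsQuasicoherent k.pt := by
  have hM' : (tilde.functor R).essImage M := by rw [essImage_tilde]; exact hM
  have hN' : (tilde.functor R).essImage N := by rw [essImage_tilde]; exact hN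
  suffices h : (tilde.functor R).essImage k.pt by rw [essImage_tilde] at h; exact h
  obtain ⟨A, ⟨eA⟩⟩ := hM'
  obtain ⟨B, ⟨eB⟩⟩ := hN'
  let g : A ⟶ B := (tilde.functor R).preimage (eA.hom ≫ f ≫ eB.inv)
  let e1 : cokernel ((tilde.functor R).map g) ≅ cokernel f :=
    cokernel.mapIso _ _ eA eB (by
      simp only [g, (tilde.functor R).map_preimage]
      simp)
  exact ⟨cokernel g, ⟨PreservesCokernel.iso (tilde.functor R) g ≪≫ e1 ≪≫
    IsColimit.coconePointUniqueUpToIso (colimit.isColimit _) hk⟩⟩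

lemma closedUnderCokernels (Y : Scheme.{0}) : (IsQCoh Y).IsClosedUnderCokernels where
  cokernels_le := by
    rintro _ ⟨f, k, hk, hf⟩
    rw [isQCoh_iff_restrict]
    intro U hU
    have h1 := isQCoh_restrict _ hU hf.1
    have h2 := isQCoh_restrict _ hU hf.2
    have := CokernelCofork.mapIsColimit _ hk (Scheme.Modules.restrictFunctor hU.fromSpec)
    exact cokernel_spec _ _ this h1 h2

end Pool.Agent.H66DE.QC23

namespace Pool.Agent.H66DE

/-- CLQ -/
theorem clq : QCohClosedStatement := fun Y ↦ ⟨QC23.containsZero Y, QC23.closedUnderKernels Y,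
  QC23.closedUnderCokernels Y, QC23.closedUnderFiniteProducts Y⟩

end Pool.Agent.H66DE
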