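import Pool.Agent.Helper23_DE.CLQ

/-!
# EPI: epimorphisms of quasi-coherent modules, and CLC: coherent modules
-/

open CategoryTheory CategoryTheory.Limits AlgebraicGeometry TopologicalSpace Opposite

noncomputable section

namespace Pool.Agent.H66DE.QC23

set_option backward.isDefEq.respectTransparency false in
lemma surjective_spec {R : CommRingCat.{0}} {M N : (Spec R).Modules} (p : M ⟶ N)
    (hM : M.IsQuasicoherent) (hN : N.IsQuasicoherent) (hp : Epi p) :
    Function.Surjective (p.app ⊤) := by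
  have h1 : IsIso M.fromTildeΓ := (isQuasicoherent_iff_isIso_fromTildeΓ M).1 hM
  have h2 : IsIso N.fromTildeΓ := (isQuasicoherent_iff_isIso_fromTildeΓ N).1 hN
  let q := moduleSpecΓFunctor.map p
  let eM : (tilde.functor R).obj (moduleSpecΓFunctor.obj M) ≅ M := asIso M.fromTildeΓ
  let eN : (tilde.functor R).obj (moduleSpecΓFunctor.obj N) ≅ N := asIso N.fromTildeΓ
  have h3 : (tilde.functor R).map q ≫ eN.hom = eM.hom ≫ p :=
    (tilde.adjunction (R := R)).counit.naturality p
  have h4 : Epi ((tilde.functor R).map q) := by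
    have h6 : (tilde.functor R).map q = eM.hom ≫ p ≫ eN.inv := by
      rw [← Category.assoc, ← h3, Category.assoc, eN.hom_inv_id, Category.comp_id]
    rw [h6]
    exact epi_comp _ _
  have h5 : Epi q := (tilde.functor R).epi_of_epi_map h4
  exact (ModuleCat.epi_iff_surjective q).1 h5

lemma surjective_congr {Y : Scheme.{0}} {M N : Y.Modules} (p : M ⟶ N) {U V : Y.Opens}
    (h : U = V) (hs : Function.Surjective (p.app U)) : Function.Surjective (p.app V) := by
  subst h; exact hs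

lemma surjective_of_epi {Y : Scheme.{0}} {M N : Y.Modules} (hM : IsQCoh Y M) (hN : IsQCoh Y N)
    (p : M ⟶ N) (hp : Epi p) {U : Y.Opens} (hU : IsAffineOpen U) :
    Function.Surjective (p.app U) := by
  refine surjective_congr p (img_top hU) ?_
  exact surjective_spec ((Scheme.Modules.restrictFunctor hU.fromSpec).map p)
    (isQCoh_restrict M hU hM) (isQCoh_restrict N hU hN) inferInstance

/-- two sections agreeing on a neighbourhood of every point agree -/
lemma eq_zero_of_local {Y : Scheme.{0}} (M : Y.Modules) (V : Y.Opens) (s : Γ(M, V))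
    (h : ∀ x ∈ V, ∃ (W : Y.Opens) (hW : W ≤ V), x ∈ W ∧ M.presheaf.map (homOfLE hW).op s = 0) :
    s = 0 := by
  choose W hW hx hs using fun x : V ↦ h x.1 x.2
  refine TopCat.Sheaf.eq_of_locally_eq' ⟨_, M.isSheaf⟩ W V (fun x ↦ homOfLE (hW x)) ?_ s 0
    fun x ↦ ?_
  · intro x hxV
    exact Opens.mem_iSup.2 ⟨⟨x, hxV⟩, hx ⟨x, hxV⟩⟩
  · rw [hs x, map_zero]

lemma isUnit_res {Y : Scheme.{0}} {U : Y.Opens} (f : Γ(Y, U)) :
    IsUnit (Y.presheaf.map (homOfLE (Y.basicOpen_le f)).op f) :=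
  RingedSpace.isUnit_res_basicOpen _ f

lemma epi_of_cover {Y : Scheme.{0}} {M N : Y.Modules} (hN : IsQCoh Y N)
    (p : M ⟶ N) {ι : Type} (U : ι → Y.Opens) (hU : ∀ i, IsAffineOpen (U i))
    (hc : ⨆ i, U i = ⊤) (hs : ∀ i, Function.Surjective (p.app (U i))) : Epi p := by
  refine Preadditive.epi_of_cancel_zero p fun {Z} g hg ↦ ?_
  ext V s
  refine eq_zero_of_local Z V _ fun x hx ↦ ?_
  obtain ⟨i, hi⟩ : ∃ i, x ∈ U i := by
    have : x ∈ ⨆ i, U i := by rw [hc]; trivial
    exact Opens.mem_iSup.1 this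
  obtain ⟨f, hf, hxf⟩ := (hU i).exists_basicOpen_le ⟨x, hx⟩ hi
  refine ⟨Y.basicOpen f, hf, hxf, ?_⟩
  obtain ⟨n, t, ht⟩ := (locAt_of_isQCoh N (hU i) hN f).2 (N.presheaf.map (homOfLE hf).op s)
  obtain ⟨t', rfl⟩ := hs i t
  have h0 : g.app (U i) (p.app (U i) t') = 0 := by
    have : (p ≫ g).app (U i) t' = 0 := by rw [hg]; rfl
    exact this
  have h1 := congr(g.app _ $ht)
  rw [app_map, h0, map_zero, Scheme.Modules.Hom.app_smul] at h1
  rw [← app_map]
  exact ((isUnit_res f).pow n).smul_eq_zero.1 h1.symm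

end Pool.Agent.H66DE.QC23

namespace Pool.Agent.H66DE

/-- EPI -/
theorem epi : EpiStatement := fun _ _ _ hM hN p ↦
  ⟨fun hp _ hU ↦ QC23.surjective_of_epi hM hN p hp hU,
    fun _ U hU hc hs ↦ QC23.epi_of_cover hN p U hU hc hs⟩

end Pool.Agent.H66DE
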