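import Pool.Agent.Helper66_DE.Statements

/-!
# QCL: quasi-coherence in terms of sections on affine opens
-/

open CategoryTheory CategoryTheory.Limits AlgebraicGeometry TopologicalSpace Opposite

noncomputable section

namespace Pool.Agent.H66DE.QC23

/-- general version of `LocAt` -/
def LocG {Y : Scheme.{0}} (M : Y.Modules) (U V : Y.Opens) (h : V ≤ U) (f : Γ(Y, U)) : Prop :=
  (∀ t : Γ(M, U), M.presheaf.map (homOfLE h).op t = 0 → ∃ n : ℕ, f ^ n • t = 0) ∧
  (∀ s : Γ(M, V), ∃ (n : ℕ) (t : Γ(M, U)), M.presheaf.map (homOfLE h).op t =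
    (Y.presheaf.map (homOfLE h).op f) ^ n • s)

lemma locAt_iff {Y : Scheme.{0}} (M : Y.Modules) (U : Y.Opens) (f : Γ(Y, U)) :
    LocAt M U f ↔ LocG M U (Y.basicOpen f) (Y.basicOpen_le f) f := Iff.rfl

lemma locG_congr {Y : Scheme.{0}} (M : Y.Modules) {U V U' V' : Y.Opens} (h : V ≤ U) (h' : V' ≤ U')
    (hU : U' = U) (hV : V' = V) (f : Γ(Y, U)) :
    LocG M U V h f ↔ LocG M U' V' h' (Y.presheaf.map (homOfLE hU.le).op f) := by
  subst hU hV
  simp

/-- the property of being localizing for a module on `Spec R`, elementwise -/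
lemma isLocalizing_iff' {R : CommRingCat.{0}} (M : (Spec R).Modules) :
    IsLocalizing (modulesSpecToSheaf.obj M) ↔ ∀ (f : R) (W : (Spec R).Opens)
      (_ : W = PrimeSpectrum.basicOpen f),
      (∀ t : Γ(M, ⊤), M.presheaf.map W.leTop.op t = 0 → ∃ n : ℕ, f ^ n • t = 0) ∧
      (∀ s : Γ(M, W), ∃ (n : ℕ) (t : Γ(M, ⊤)), M.presheaf.map W.leTop.op t = f ^ n • s) := by
  let φ (f : R) := ((modulesSpecToSheaf.obj M).obj.map (PrimeSpectrum.basicOpen f).leTop.op).hom
  refine ⟨?_, fun h f ↦ IsLocalizedModule.Away.mk_of_addCommGroup ?_ ?_ ?_⟩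
  · rintro h f _ rfl
    have hf (f : R) : IsLocalizedModule.Away f (φ f) := h f
    refine ⟨fun s hs ↦ ?_, fun s ↦ ?_⟩
    · obtain ⟨⟨_, n, rfl⟩, hn⟩ := (IsLocalizedModule.eq_zero_iff (.powers f) (φ f)).mp hs
      use n, hn
    · obtain ⟨n, y, hy⟩ := (hf f).surj _ _ s
      use n, y, hy.symm
  · exact Scheme.Modules.isUnit_algebraMap_end_of_le_basicOpen f le_rfl
  · intro x
    obtain ⟨n, t, ht⟩ := (h f _ rfl).2 x
    use n, t, ht.symm
  · intro x hx
    obtain ⟨n, hn⟩ := (h f _ rfl).1 _ hx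
    use n, hn

/-- scalars on the restriction to `Spec Γ(Y, U)` -/
lemma smul_restrict {Y : Scheme.{0}} (M : Y.Modules) {U : Y.Opens} (hU : IsAffineOpen U)
    (W : (Spec Γ(Y, U)).Opens) (f : Γ(Y, U)) (x : Γ(M.restrict hU.fromSpec, W)) :
    (M.restrictAppIso hU.fromSpec W).hom (f • x) =
      (Y.presheaf.map (homOfLE (show hU.fromSpec ''ᵁ W ≤ U from
        (hU.fromSpec.image_le_opensRange W).trans hU.opensRange_fromSpec.le)).op f) •
        (M.restrictAppIso hU.fromSpec W).hom x := by
  rw [Scheme.Modules.smul_Spec_def, Scheme.Modules.smul_restrictAppIso_hom_apply]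
  congr 1
  have key : (Scheme.ΓSpecIso Γ(Y, U)).inv ≫ (Spec Γ(Y, U)).presheaf.map W.leTop.op =
      Y.presheaf.map (homOfLE (show hU.fromSpec ''ᵁ W ≤ U from
        (hU.fromSpec.image_le_opensRange W).trans hU.opensRange_fromSpec.le)).op ≫
        (hU.fromSpec.appIso W).hom := by
    rw [Scheme.Hom.appIso_hom', Scheme.Hom.map_appLE]
    rw [Scheme.Hom.appLE, hU.fromSpec_app_self, Category.assoc, ← Functor.map_comp]
    rfl
  have := congr((hU.fromSpec.appIso W).inv ($key f))
  simpa using this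


variable {Y : Scheme.{0}} (M : Y.Modules) {U : Y.Opens} (hU : IsAffineOpen U)

lemma img_top : hU.fromSpec ''ᵁ ⊤ = U := by
  rw [Scheme.Hom.image_top_eq_opensRange, hU.opensRange_fromSpec]

/-- being localizing on `Spec Γ(Y, U)` in terms of sections on `Y` -/
lemma isLocalizing_restrict_iff :
    IsLocalizing (modulesSpecToSheaf.obj (M.restrict hU.fromSpec)) ↔
      ∀ f : Γ(Y, U), LocAt M U f := by
  rw [isLocalizing_iff']
  refine forall_congr' fun f ↦ ?_
  rw [locAt_iff, locG_congr M (Y.basicOpen_le f) (Scheme.Hom.image_mono _ le_top)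
    (img_top hU) (hU.fromSpec_image_basicOpen f)]
  constructor
  · intro h
    obtain ⟨h1, h2⟩ := h _ rfl
    refine ⟨fun t ht ↦ ?_, fun s ↦ ?_⟩
    · obtain ⟨n, hn⟩ := h1 ((M.restrictAppIso hU.fromSpec ⊤).inv t) (by exact ht)
      refine ⟨n, ?_⟩
      have := smul_restrict M hU ⊤ (f ^ n) ((M.restrictAppIso hU.fromSpec ⊤).inv t)
      rw [hn, map_zero, map_pow] at this
      exact this.symm
    · obtain ⟨n, t, hn⟩ := h2 ((M.restrictAppIso hU.fromSpec _).inv s)
      refine ⟨n, (M.restrictAppIso hU.fromSpec ⊤).hom t, ?_⟩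
      have := smul_restrict M hU _ (f ^ n) ((M.restrictAppIso hU.fromSpec _).inv s)
      rw [← hn, map_pow] at this
      rw [← Functor.map_comp_apply]
      exact this
  · rintro ⟨h1, h2⟩ _ rfl
    refine ⟨fun t ht ↦ ?_, fun s ↦ ?_⟩
    · obtain ⟨n, hn⟩ := h1 ((M.restrictAppIso hU.fromSpec ⊤).hom t) (by exact ht)
      refine ⟨n, ?_⟩
      have := smul_restrict M hU ⊤ (f ^ n) t
      rw [map_pow] at this
      exact this.trans hn
    · obtain ⟨n, t, hn⟩ := h2 ((M.restrictAppIso hU.fromSpec _).hom s)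
      refine ⟨n, (M.restrictAppIso hU.fromSpec ⊤).inv t, ?_⟩
      have := smul_restrict M hU _ (f ^ n) s
      rw [map_pow] at this
      rw [← Functor.map_comp_apply] at hn
      exact hn.trans this.symm

include hU in
lemma isQCoh_restrict (h : IsQCoh Y M) : (M.restrict hU.fromSpec).IsQuasicoherent := by
  have : M.IsQuasicoherent := h
  exact Scheme.Modules.isQuasicoherent_restrictFunctor hU.fromSpec M

include hU in
lemma locAt_of_isQCoh (h : IsQCoh Y M) (f : Γ(Y, U)) : LocAt M U f := by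
  have := isQCoh_restrict M hU h
  refine (isLocalizing_restrict_iff M hU).1 ?_ f
  rw [← isIso_fromTildeΓ_iff_isLocalizing]
  infer_instance

set_option backward.isDefEq.respectTransparency false in
lemma nonempty_presentation {R : CommRingCat.{0}} (M : (Spec R).Modules) [M.IsQuasicoherent] :
    Nonempty M.Presentation := by
  let N : ModuleCat R := (modulesSpecToSheaf.obj M).presheaf.obj (.op ⊤)
  let P : (tilde N).Presentation := presentationTilde N .univ (by simp) _ (Submodule.span_eq _)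
  have : IsIso M.fromTildeΓ := inferInstance
  let e : tilde N ≅ M := asIso M.fromTildeΓ
  exact ⟨SheafOfModules.Presentation.ofIsIso.{0, 0, 0} e.hom P⟩

set_option backward.isDefEq.respectTransparency false in
lemma nonempty_presentation_restrict (h : (M.restrict hU.fromSpec).IsQuasicoherent) :
    Nonempty (M.restrict U.ι).Presentation := by
  obtain ⟨P⟩ := nonempty_presentation (M.restrict hU.fromSpec)
  let P' := Scheme.Modules.presentationRestrict hU.isoSpec.hom P
  let e : (M.restrict hU.fromSpec).restrict hU.isoSpec.hom ≅ M.restrict U.ι :=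
    ((Scheme.Modules.restrictFunctorComp hU.isoSpec.hom hU.fromSpec).symm ≪≫
      Scheme.Modules.restrictFunctorCongr (by simp)).app M
  exact ⟨SheafOfModules.Presentation.ofIsIso.{0, 0, 0} e.hom P'⟩

set_option backward.isDefEq.respectTransparency false in
lemma nonempty_presentation_over (h : (M.restrict hU.fromSpec).IsQuasicoherent) :
    Nonempty (SheafOfModules.over M U).Presentation := by
  obtain ⟨P⟩ := nonempty_presentation_restrict M hU h
  let E := Scheme.Modules.overEquiv U
  let e : M.restrict U.ι ≅ E.functor.obj (SheafOfModules.over M U) :=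
    ((Scheme.Modules.overFunctorEquiv U).symm).app M
  let P' := SheafOfModules.Presentation.ofIsIso.{0, 0, 0} e.hom P
  let η : SheafOfModules.unit (Y.ringCatSheaf.over U) ≅
      E.inverse.obj (SheafOfModules.unit (Scheme.ringCatSheaf (U : Scheme.{0}))) :=
    E.unitIso.app (SheafOfModules.unit (Y.ringCatSheaf.over U))
  let P'' := SheafOfModules.Presentation.map P' E.inverse η
  exact ⟨SheafOfModules.Presentation.ofIsIso.{0, 0, 0} (E.unitIso.app (SheafOfModules.over M U)).inv
    P''⟩

lemma isQCoh_of_cover {ι : Type} (U : ι → Y.Opens) (hU : ∀ i, IsAffineOpen (U i))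
    (hc : ⨆ i, U i = ⊤) (h : ∀ i, (M.restrict (hU i).fromSpec).IsQuasicoherent) :
    IsQCoh Y M := by
  have hp : ∀ i, Nonempty ((SheafOfModules.over M (U i)).Presentation) := by
    intro i
    exact nonempty_presentation_over M (hU i) (h i)
  exact SheafOfModules.QuasicoherentData.isQuasicoherent
    { I := ι
      X := U
      coversTop := (Opens.coversTop_iff _ U).2 hc
      presentation := fun i ↦ (hp i).some }

lemma isQuasicoherent_restrict_of_locAt (h : ∀ f : Γ(Y, U), LocAt M U f) :
    (M.restrict hU.fromSpec).IsQuasicoherent := by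
  rw [isQuasicoherent_iff_isIso_fromTildeΓ, isIso_fromTildeΓ_iff_isLocalizing,
    isLocalizing_restrict_iff]
  exact h

end Pool.Agent.H66DE.QC23

namespace Pool.Agent.H66DE

/-- QCL -/
theorem qcl : QCLocStatement :=
  ⟨fun _ M hM _ hU f ↦ QC23.locAt_of_isQCoh M hU hM f,
    fun _ M _ U hU hc h ↦ QC23.isQCoh_of_cover M U hU hc fun i ↦
      QC23.isQuasicoherent_restrict_of_locAt M (hU i) (h i)⟩

end Pool.Agent.H66DE
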